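import Pool.Agent.Helper539.Sparse

namespace Pool.Agent.Results.MP_1cfd87_co.BoundedDegree

open SimpleGraph Filter Topology Pool.Agent.Helper539

universe u

/-- If no vertex is isolated, there are at most `2 |E|` vertices. -/
theorem card_le_two_mul {V : Type*} [Fintype V] (G : SimpleGraph V)
    (hiso : ∀ v, ∃ w, G.Adj v w) : Fintype.card V ≤ 2 * G.edgeSet.ncard := by
  classical
  have h1 : ∑ _v : V, 1 ≤ ∑ v, G.degree v := by
    apply Finset.sum_le_sum
    intro v _
    obtain ⟨w, hw⟩ := hiso v
    exact (G.degree_pos_iff_exists_adj v).2 ⟨w, hw⟩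
  rw [G.sum_degrees_eq_twice_card_edges] at h1
  have h2 : G.edgeSet.ncard = G.edgeFinset.card := by
    rw [← Set.ncard_coe_finset]
    simp
  rw [h2]
  simpa using h1

/-- If all degrees are at most `D`, there are at most `D |V|` edges. -/
theorem edges_le {V : Type*} [Fintype V] (G : SimpleGraph V) {D : ℕ}
    (hD : ∀ v, (G.neighborSet v).ncard ≤ D) : G.edgeSet.ncard ≤ D * Fintype.card V := by
  classical
  have h1 : ∑ v, G.degree v ≤ ∑ _v : V, D := by
    apply Finset.sum_le_sum
    intro v _
    have h2 : (G.neighborSet v).ncard = G.degree v := by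
      rw [← SimpleGraph.card_neighborFinset_eq_degree, ← Set.ncard_coe_finset]
      congr 1
      ext w
      simp
    rw [← h2]
    exact hD v
  rw [G.sum_degrees_eq_twice_card_edges] at h1
  have h2 : G.edgeSet.ncard = G.edgeFinset.card := by
    rw [← Set.ncard_coe_finset]
    simp
  rw [h2]
  have h3 : ∑ _v : V, D = D * Fintype.card V := by
    simp [mul_comm]
  omega

/-- Question 1: for every sequence of graphs without isolated vertices, with at least one edge
each, whose numbers of vertices tend to infinity and whose maximum degrees are bounded, the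
limits `ρ n` of `r̂(G n, t K₂) / (t |E(G n)|)` exist and tend to `0`. -/
theorem result (V : ℕ → Type u) [∀ n, Fintype (V n)] (G : ∀ n, SimpleGraph (V n))
    (hedge : ∀ n, (G n).edgeSet.Nonempty)
    (hiso : ∀ n v, ∃ w, (G n).Adj v w)
    (hV : Tendsto (fun n => Fintype.card (V n)) atTop atTop)
    (D : ℕ) (hD : ∀ n v, ((G n).neighborSet v).ncard ≤ D) :
    ∃ ρ : ℕ → ℝ,
      (∀ n, Tendsto (fun t : ℕ =>
        (sizeRamsey (G n) (matchingGraph t) : ℝ) / (t * (G n).edgeSet.ncard))
        atTop (𝓝 (ρ n))) ∧
      Tendsto ρ atTop (𝓝 0) := by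
  choose ρ hρ hρ0 hρle using fun n => exists_limit (G n)
  refine ⟨ρ, hρ, ?_⟩
  rw [tendsto_order]
  constructor
  · intro a ha
    exact Eventually.of_forall (fun n => lt_of_lt_of_le ha (hρ0 n))
  · intro δ hδ
    obtain ⟨ε, hε, n₀, h⟩ := sparse_case.{u} (δ / 2) (half_pos hδ) D
    obtain ⟨n₁, hn₁⟩ := exists_nat_ge ((D : ℝ) / ε)
    filter_upwards [hV.eventually (eventually_ge_atTop (max n₀ n₁))] with n hn
    have hn0 : n₀ ≤ Fintype.card (V n) := (le_max_left _ _).trans hn
    have hn1 : n₁ ≤ Fintype.card (V n) := (le_max_right _ _).trans hn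
    obtain ⟨t, ht1, ht⟩ := h (V n) (G n) hn0 (edges_le (G n) (hD n))
      (card_le_two_mul (G n) (hiso n)) (by
        intro v
        have h1 : (((G n).neighborSet v).ncard : ℝ) ≤ D := by exact_mod_cast hD n v
        have h2 : (D : ℝ) ≤ ε * Fintype.card (V n) := by
          have h3 : (D : ℝ) / ε ≤ Fintype.card (V n) :=
            hn₁.trans (by exact_mod_cast hn1)
          rw [div_le_iff₀ hε] at h3
          linarith
        exact h1.trans h2)
    have hm : (0 : ℝ) < (G n).edgeSet.ncard := by
      have : 0 < (G n).edgeSet.ncard := (Set.ncard_pos (Set.toFinite _)).2 (hedge n)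
      exact_mod_cast this
    have ht0 : (0 : ℝ) < t := by exact_mod_cast ht1
    have h1 := hρle n t (by omega)
    have h2 : (sizeRamsey (G n) (matchingGraph t) : ℝ) / (t * (G n).edgeSet.ncard) ≤ δ / 2 := by
      rw [div_le_iff₀ (by positivity)]
      exact ht
    linarith

end Pool.Agent.Results.MP_1cfd87_co.BoundedDegree
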