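import Pool.Agent.Helper539.General

namespace Pool.Agent.Results.MP_1cfd87_co.ZeroCriterion

open SimpleGraph Filter Topology Pool.Agent.Helper539

universe u

/-- For every sequence of graphs without isolated vertices and with at least one edge each, the
limits `ρ n` of `r̂(G n, t K₂) / (t |E(G n)|)` exist, and they tend to `0` if and only if the
quotients maximum degree / number of edges tend to `0`. -/
theorem result (V : ℕ → Type u) [∀ n, Fintype (V n)] (G : ∀ n, SimpleGraph (V n))
    [∀ n, DecidableRel (G n).Adj]
    (hedge : ∀ n, (G n).edgeSet.Nonempty)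
    (hiso : ∀ n v, ∃ w, (G n).Adj v w) :
    ∃ ρ : ℕ → ℝ,
      (∀ n, Tendsto (fun t : ℕ =>
        (sizeRamsey (G n) (matchingGraph t) : ℝ) / (t * (G n).edgeSet.ncard))
        atTop (𝓝 (ρ n))) ∧
      (Tendsto ρ atTop (𝓝 0) ↔
        Tendsto (fun n => ((G n).maxDegree : ℝ) / (G n).edgeSet.ncard) atTop (𝓝 0)) := by
  choose ρ hρ hρ0 hρle using fun n => exists_limit (G n)
  have hm : ∀ n, (0 : ℝ) < (G n).edgeSet.ncard := by
    intro n
    have : 0 < (G n).edgeSet.ncard := (Set.ncard_pos (Set.toFinite _)).2 (hedge n)
    exact_mod_cast this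
  have hdeg : ∀ n v, ((G n).neighborSet v).ncard = (G n).degree v := by
    intro n v
    rw [← SimpleGraph.card_neighborFinset_eq_degree, ← Set.ncard_coe_finset]
    congr 1
    ext w
    simp
  refine ⟨ρ, hρ, ?_, ?_⟩
  · intro h0
    refine squeeze_zero (fun n => by positivity) (fun n => ?_) h0
    have hne : Nonempty (V n) := by
      obtain ⟨e, he⟩ := hedge n
      induction e using Sym2.ind with
      | _ a b => exact ⟨a⟩
    obtain ⟨v, hv⟩ := (G n).exists_maximal_degree_vertex
    refine ge_of_tendsto (hρ n) ?_
    filter_upwards [eventually_ge_atTop 1] with t ht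
    have h1 : (t : ℝ) * (G n).maxDegree ≤ sizeRamsey (G n) (matchingGraph t) := by
      have := mul_degree_le_sizeRamsey (G n) v t
      rw [hdeg n v, ← hv] at this
      exact_mod_cast this
    have ht0 : (0 : ℝ) < t := by exact_mod_cast ht
    rw [div_le_div_iff₀ (hm n) (by have := hm n; positivity)]
    have := hm n
    nlinarith
  · intro h0
    rw [tendsto_order]
    constructor
    · intro a ha
      exact Eventually.of_forall (fun n => lt_of_lt_of_le ha (hρ0 n))
    · intro δ hδ
      obtain ⟨ε, hε, h⟩ := general_case.{u} (δ / 2) (half_pos hδ)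
      filter_upwards [(tendsto_order.1 h0).2 ε hε] with n hn
      rw [div_lt_iff₀ (hm n)] at hn
      obtain ⟨t, ht1, ht⟩ := h (V n) (G n) (hedge n) (hiso n) (by
        intro v
        rw [hdeg n v]
        have h1 : ((G n).degree v : ℝ) ≤ (G n).maxDegree := by
          exact_mod_cast (G n).degree_le_maxDegree v
        exact h1.trans hn.le)
      have ht0 : (0 : ℝ) < t := by exact_mod_cast ht1
      have h1 := hρle n t (by omega)
      have h2 : (sizeRamsey (G n) (matchingGraph t) : ℝ) / (t * (G n).edgeSet.ncard) ≤ δ / 2 := by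
        rw [div_le_iff₀ (by have := hm n; positivity)]
        exact ht
      linarith

end Pool.Agent.Results.MP_1cfd87_co.ZeroCriterion
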